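import Mathlib
import Pool.Agent.U514.SP.Stm

/-!
# Project SP, package COST (helper61): cost of the layout
-/

set_option autoImplicit false

namespace Pool.Agent.U61.SP

open Finset
open Pool.Agent.U514.SP

theorem sum_side {F V : Type} [Field F] (p : Par F V) 
    (f : Fin p.s × Fin p.s × (Σ τ : Fin p.nT, Fin p.m × Fin (p.m / p.t τ) × Fin p.N) → ℕ)
    (hf : ∀ x, f x ≤ 5 * p.t x.2.2.1 ^ 2) :
    ∑ x, f x ≤ 5 * (p.s ^ 2 * p.m ^ 2 * p.N * ∑ τ, p.t τ) := by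
  calc ∑ x, f x ≤ ∑ x : Fin p.s × Fin p.s × (Σ τ : Fin p.nT, Fin p.m × Fin (p.m / p.t τ) × Fin p.N),
        5 * p.t x.2.2.1 ^ 2 := Finset.sum_le_sum fun x _ => hf x
    _ = ∑ _i3 : Fin p.s, ∑ _k3 : Fin p.s, ∑ τ : Fin p.nT,
          ∑ _y : Fin p.m × Fin (p.m / p.t τ) × Fin p.N, 5 * p.t τ ^ 2 := by
        rw [Fintype.sum_prod_type]
        refine Finset.sum_congr rfl fun i3 _ => ?_
        rw [Fintype.sum_prod_type]
        refine Finset.sum_congr rfl fun k3 _ => ?_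
        rw [Fintype.sum_sigma]
    _ = p.s * (p.s * ∑ τ : Fin p.nT, (p.m * ((p.m / p.t τ) * p.N)) * (5 * p.t τ ^ 2)) := by
        simp only [Finset.sum_const, Finset.card_univ, Fintype.card_prod, Fintype.card_fin,
          smul_eq_mul]
    _ ≤ p.s * (p.s * ∑ τ : Fin p.nT, 5 * p.m ^ 2 * p.N * p.t τ) := by
        refine Nat.mul_le_mul_left _ (Nat.mul_le_mul_left _ (Finset.sum_le_sum fun τ _ => ?_))
        have h : (p.m / p.t τ) * p.t τ ≤ p.m := Nat.div_mul_le_self _ _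
        calc (p.m * ((p.m / p.t τ) * p.N)) * (5 * p.t τ ^ 2)
            = (5 * p.m * p.N * p.t τ) * ((p.m / p.t τ) * p.t τ) := by ring
          _ ≤ (5 * p.m * p.N * p.t τ) * p.m := Nat.mul_le_mul_left _ h
          _ = 5 * p.m ^ 2 * p.N * p.t τ := by ring
    _ = 5 * (p.s ^ 2 * p.m ^ 2 * p.N * ∑ τ, p.t τ) := by
        rw [← Finset.mul_sum]
        ring

theorem t_COST : S_ITEM → S_COST := by
  intro hI F V _ p hp
  have h := hI F V p hp
  have e : p.prog.cost = ∑ d : p.Item, p.prog.itemCost d := rfl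
  rw [e, Fintype.sum_sum_type, Fintype.sum_sum_type, Fintype.sum_sum_type]
  have h1 := sum_side p (fun x => p.prog.itemCost (Sum.inl x : p.Item))
    (fun x => (h x.1 x.2.1).1 x.2.2.1 x.2.2.2.1 x.2.2.2.2.1 x.2.2.2.2.2)
  have h2 := sum_side p (fun x => p.prog.itemCost (Sum.inr (Sum.inl x) : p.Item))
    (fun x => (h x.1 x.2.1).2.1 x.2.2.1 x.2.2.2.1 x.2.2.2.2.1 x.2.2.2.2.2)
  have h3 : ∑ x : Fin p.s × Fin p.s × Fin p.nT × Fin p.m × Fin p.m,
      p.prog.itemCost (Sum.inr (Sum.inr (Sum.inl x)) : p.Item) ≤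
        20 * (p.s ^ 2 * p.m ^ 2 * p.N * ∑ τ, p.t τ) := by
    calc _ ≤ ∑ x : Fin p.s × Fin p.s × Fin p.nT × Fin p.m × Fin p.m, 20 * p.N * p.t x.2.2.1 :=
          Finset.sum_le_sum fun x _ => (h x.1 x.2.1).2.2.1 x.2.2.1 x.2.2.2.1 x.2.2.2.2
      _ = p.s * (p.s * ∑ τ : Fin p.nT, (p.m * p.m) * (20 * p.N * p.t τ)) := by
          simp only [Fintype.sum_prod_type, Finset.sum_const, Finset.card_univ, Fintype.card_fin,
            Fintype.card_prod, smul_eq_mul, mul_assoc]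
      _ = 20 * (p.s ^ 2 * p.m ^ 2 * p.N * ∑ τ, p.t τ) := by
          rw [← Finset.mul_sum, ← Finset.mul_sum]
          ring
  have h4 : ∑ x : Fin p.s × Fin p.s × (Fin p.nX × Fin p.m) × (Fin p.nX × Fin p.m),
      p.prog.itemCost (Sum.inr (Sum.inr (Sum.inr x)) : p.Item) ≤
        20 * (p.s ^ 2 * p.g * p.nX ^ 4 * p.nT ^ 2 * p.m ^ 6) := by
    calc _ ≤ ∑ _x : Fin p.s × Fin p.s × (Fin p.nX × Fin p.m) × (Fin p.nX × Fin p.m),
            20 * p.g * p.nX ^ 2 * p.nT ^ 2 * p.m ^ 4 :=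
          Finset.sum_le_sum fun x _ => (h x.1 x.2.1).2.2.2 x.2.2.1.1 x.2.2.1.2 x.2.2.2.1 x.2.2.2.2
      _ = 20 * (p.s ^ 2 * p.g * p.nX ^ 4 * p.nT ^ 2 * p.m ^ 6) := by
          simp only [Finset.sum_const, Finset.card_univ, Fintype.card_prod, Fintype.card_fin,
            smul_eq_mul]
          ring
  calc _ ≤ 5 * (p.s ^ 2 * p.m ^ 2 * p.N * ∑ τ, p.t τ) +
        (5 * (p.s ^ 2 * p.m ^ 2 * p.N * ∑ τ, p.t τ) +
          (20 * (p.s ^ 2 * p.m ^ 2 * p.N * ∑ τ, p.t τ) +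
            20 * (p.s ^ 2 * p.g * p.nX ^ 4 * p.nT ^ 2 * p.m ^ 6))) :=
        Nat.add_le_add h1 (Nat.add_le_add h2 (Nat.add_le_add h3 h4))
    _ = _ := by ring

end Pool.Agent.U61.SP
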